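import Pool.Agent.Helper78.LN.Base

/-!
# LN, packet SUM: the accepting runs, sorted by their answers
-/

namespace Pool.Agent.Helper87.LN

open Pool.Agent.Helper81.CC Pool.Agent.Helper51.ZP Pool.Agent.Helper78.LN

variable (A : LinMachine) (x : List Bool)

/-- a stage only appends answers -/
lemma step_spec {t : ℕ} {b : Bool} {c c' : Conf (A.dim x)} (h : A.step x t b c = some c') :
    (A.reads (x, t, c.a) = true ∧ ∃ d, c'.a = c.a ++ [d]) ∨
      (¬ A.reads (x, t, c.a) = true ∧ c'.a = c.a) := by
  unfold LinMachine.step at h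
  split_ifs at h with h1 h2
  · left
    refine ⟨h1, decide (A.value x t b c = 1), ?_⟩
    rw [← Option.some.inj h]
  · right
    refine ⟨h1, ?_⟩
    rw [← Option.some.inj h]

lemma run_cons {t : ℕ} {b : Bool} {ρ : List Bool} {c c' : Conf (A.dim x)}
    (h : A.run x t (b :: ρ) c = some c') :
    ∃ c1, A.step x t b c = some c1 ∧ A.run x (t + 1) ρ c1 = some c' := by
  unfold LinMachine.run at h
  exact Option.bind_eq_some_iff.1 h

/-- a run only appends answers -/
lemma run_prefix (ρ : List Bool) : ∀ {t : ℕ} {c c' : Conf (A.dim x)},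
    A.run x t ρ c = some c' → c.a <+: c'.a := by
  induction ρ with
  | nil =>
    intro t c c' h
    unfold LinMachine.run at h
    rw [Option.some.inj h]
  | cons b ρ ih =>
    intro t c c' h
    obtain ⟨c1, h1, h2⟩ := run_cons A x h
    refine List.IsPrefix.trans ?_ (ih h2)
    rcases step_spec A x h1 with ⟨-, d, hd⟩ | ⟨-, hd⟩
    · rw [hd]; exact List.prefix_append _ _
    · rw [hd]

/-- the schedule of the answers is determined by the answers -/
lemma run_kk (s : List Bool) (ρ : List Bool) : ∀ {t : ℕ} {c c' : Conf (A.dim x)},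
    A.run x t ρ c = some c' → c'.a <+: s → kk A x s t = c.a.length →
      kk A x s (t + ρ.length) = c'.a.length := by
  induction ρ with
  | nil =>
    intro t c c' h _ hk
    unfold LinMachine.run at h
    rw [← Option.some.inj h]
    simpa using hk
  | cons b ρ ih =>
    intro t c c' h hs hk
    obtain ⟨c1, h1, h2⟩ := run_cons A x h
    have hpre : c1.a <+: c'.a := run_prefix A x ρ h2
    have hcs : c.a <+: s := (run_prefix A x (b :: ρ) h).trans hs
    have htake : s.take (kk A x s t) = c.a := by
      rw [hk]; exact (List.prefix_iff_eq_take.1 hcs).symm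
    have hk1 : kk A x s (t + 1) = c1.a.length := by
      rw [kk, htake]
      rcases step_spec A x h1 with ⟨hr, d, hd⟩ | ⟨hr, hd⟩
      · rw [if_pos hr, hd, hk, List.length_append, List.length_singleton]
      · rw [if_neg hr, hd, hk, Nat.add_zero]
    have := ih h2 hs hk1
    rw [List.length_cons, show t + (ρ.length + 1) = t + 1 + ρ.length by omega]
    exact this

lemma accepts_kk {s a : List Bool} {ρ : Fin (A.stages x) → Bool}
    (h : A.AcceptsWith x a (List.ofFn ρ)) (hs : a <+: s) :
    kk A x s (A.stages x) = a.length := by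
  obtain ⟨c, h1, -, -, h4⟩ := h
  rw [← h4] at hs
  have := run_kk A x s (List.ofFn ρ) h1 hs (by simp [kk])
  rw [List.length_ofFn, Nat.zero_add] at this
  rw [this, h4]

lemma accepts_unique {a a' : List Bool} {ρ : List Bool}
    (h : A.AcceptsWith x a ρ) (h' : A.AcceptsWith x a' ρ) : a = a' := by
  obtain ⟨c, h1, -, -, h4⟩ := h
  obtain ⟨c', h1', -, -, h4'⟩ := h'
  rw [h1] at h1'
  rw [← h4, ← h4', Option.some.inj h1']

lemma all_not_eq_replicate {l : List Bool} (h : (l.all fun b => !b) = true) :
    l = List.replicate l.length false := by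
  rw [List.eq_replicate_iff]
  refine ⟨rfl, fun b hb => ?_⟩
  have := List.all_eq_true.1 h b hb
  simpa using this

theorem SUM_holds : SumStmt := by
  classical
  intro A x N hN
  obtain ⟨k, hk1, hk2⟩ := vecs_spec N
  let f : (Fin (A.stages x) → Bool) → List Bool := fun ρ =>
    if h : ∃ a, A.AcceptsWith x a (List.ofFn ρ) then
      h.choose ++ List.replicate (k - h.choose.length) false else []
  have hf : ∀ (ρ : Fin (A.stages x) → Bool) (a : List Bool), A.AcceptsWith x a (List.ofFn ρ) →
      f ρ = a ++ List.replicate (k - a.length) false := by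
    intro ρ a h
    have hex : ∃ a, A.AcceptsWith x a (List.ofFn ρ) := ⟨a, h⟩
    have h1 : hex.choose = a := accepts_unique A x hex.choose_spec h
    show (if h : ∃ a, A.AcceptsWith x a (List.ofFn ρ) then
      h.choose ++ List.replicate (k - h.choose.length) false else []) = _
    rw [dif_pos hex, h1]
  have hlen : ∀ (ρ : Fin (A.stages x) → Bool) (a : List Bool), A.AcceptsWith x a (List.ofFn ρ) → a.length ≤ k := by
    intro ρ a h
    have h1 := (hN a ρ h).trans hk1
    exact (Nat.pow_le_pow_iff_right (by norm_num)).1 h1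
  set S := (vecs N).toFinset.filter (fun s => Val A x s = true) with hS
  have hmemS : ∀ s, s ∈ S ↔ s.length = k ∧ Val A x s = true := by
    intro s
    rw [hS, Finset.mem_filter, List.mem_toFinset, hk2]
  have hfS : ∀ (ρ : Fin (A.stages x) → Bool) (a : List Bool), A.AcceptsWith x a (List.ofFn ρ) → f ρ ∈ S := by
    intro ρ a h
    have h1 := hlen ρ a h
    have h2 := accepts_kk A x (s := f ρ) h (by rw [hf ρ a h]; exact List.prefix_append _ _)
    rw [hmemS, Val, Bool.and_eq_true, decide_eq_true_iff]
    have h3 : (f ρ).length = k := by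
      rw [hf ρ a h, List.length_append, List.length_replicate]; omega
    refine ⟨h3, ?_, ?_⟩
    · show kk A x (f ρ) (A.stages x) ≤ _
      rw [h2, h3]; exact h1
    · show ((f ρ).drop (kk A x (f ρ) (A.stages x))).all (fun b => !b) = true
      rw [h2, hf ρ a h, List.drop_left]
      simp
  -- the two cardinalities
  have hacc : A.acc x = (Finset.univ.filter fun ρ : Fin (A.stages x) → Bool =>
      ∃ a, A.AcceptsWith x a (List.ofFn ρ)).card := by
    rw [LinMachine.acc, Nat.card_eq_fintype_card, Fintype.card_subtype]
  rw [hacc, Finset.card_eq_sum_card_fiberwise (f := f) (t := S)]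
  · apply Finset.sum_congr rfl
    intro s hs
    rw [nAcc, Nat.card_eq_fintype_card, Fintype.card_subtype]
    congr 1
    ext ρ
    simp only [Finset.mem_filter, Finset.mem_univ, true_and]
    rw [hmemS] at hs
    obtain ⟨hsl, hsv⟩ := hs
    rw [Val, Bool.and_eq_true, decide_eq_true_iff] at hsv
    obtain ⟨hv1, hv2⟩ := hsv
    change kk A x s (A.stages x) ≤ s.length at hv1
    change (s.drop (kk A x s (A.stages x))).all (fun b => !b) = true at hv2
    constructor
    · rintro ⟨⟨a, ha⟩, hfs⟩
      have h1 := hf ρ a ha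
      rw [hfs] at h1
      have h2 : a <+: s := by rw [h1]; exact List.prefix_append _ _
      have h3 := accepts_kk A x ha h2
      rw [h3, ← List.prefix_iff_eq_take.1 h2]
      exact ha
    · intro h
      refine ⟨⟨_, h⟩, ?_⟩
      rw [hf ρ _ h, List.length_take, min_eq_left hv1]
      have h4 := all_not_eq_replicate hv2
      rw [List.length_drop, hsl] at h4
      conv_rhs => rw [← List.take_append_drop (kk A x s (A.stages x)) s, h4]
  · intro ρ hρ
    rw [Finset.mem_coe, Finset.mem_filter] at hρ
    obtain ⟨-, a, ha⟩ := hρ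
    exact hfS ρ a ha

end Pool.Agent.Helper87.LN
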